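import Pool.Agent.V5helper87.ZM.Stm2

/-!
Project ZM, job LIN: the line.
-/

set_option autoImplicit false

namespace Pool.Agent.V5helper37.ZM

open Pool.Agent.H919R4.ZS Pool.Agent.TH38.CX Pool.Agent.TH38.ZT

noncomputable section

variable {G : Type} [Group G]

/-- the cells of the line -/
def LE : ℕ → Type
  | 0 => ℤ
  | 1 => ℤ
  | _ + 2 => Empty

/-- the action on the integers -/
def lineAct (π : G →* Multiplicative ℤ) : MulAction G ℤ where
  smul g n := (π g).toAdd + n
  one_smul n := by
    show (π 1).toAdd + n = n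
    rw [map_one, toAdd_one, zero_add]
  mul_smul g h n := by
    show (π (g * h)).toAdd + n = (π g).toAdd + ((π h).toAdd + n)
    rw [map_mul, toAdd_mul, add_assoc]

/-- the action on the empty set -/
def emptyAct : MulAction G Empty where
  smul _ e := e
  one_smul _ := rfl
  mul_smul _ _ _ := rfl

/-- the action on the cells -/
def lact (π : G →* Multiplicative ℤ) : ∀ i, MulAction G (LE i)
  | 0 => lineAct π
  | 1 => lineAct π
  | _ + 2 => emptyAct

/-- the boundary map from the edges to the vertices -/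
def bd0 : (ℤ →₀ ℤ) →+ (ℤ →₀ ℤ) :=
  Finsupp.mapDomain.addMonoidHom (fun n : ℤ => n + 1) - AddMonoidHom.id _

lemma bd0_apply (x : ℤ →₀ ℤ) : bd0 x = Finsupp.mapDomain (fun n : ℤ => n + 1) x - x := rfl

lemma bd0_single (n r : ℤ) :
    bd0 (Finsupp.single n r) = Finsupp.single (n + 1) r - Finsupp.single n r := by
  rw [bd0_apply, Finsupp.mapDomain_single]

/-- the boundary maps -/
def lbd : ∀ i, (LE (i + 1) →₀ ℤ) →+ (LE i →₀ ℤ)
  | 0 => bd0
  | _ + 1 => 0

/-- the sum of the coefficients -/
def tot : (ℤ →₀ ℤ) →+ ℤ := Finsupp.liftAddHom fun _ => AddMonoidHom.id ℤ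

lemma tot_apply (x : ℤ →₀ ℤ) : tot x = x.sum (fun _ r => r) := rfl

lemma tot_single (n r : ℤ) : tot (Finsupp.single n r) = r := by
  simp [tot]

lemma tot_bd0 (x : ℤ →₀ ℤ) : tot (bd0 x) = 0 := by
  have h : tot.comp bd0 = 0 := by
    apply Finsupp.addHom_ext
    intro n r
    show tot (bd0 (Finsupp.single n r)) = 0
    rw [bd0_single, map_sub, tot_single, tot_single, sub_self]
  exact DFunLike.congr_fun h x

lemma range_single (r : ℤ) (n : ℤ) : ∃ y, bd0 y = Finsupp.single n r - Finsupp.single 0 r := by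
  induction n using Int.induction_on with
  | zero => exact ⟨0, by simp⟩
  | succ n ih =>
    obtain ⟨y, hy⟩ := ih
    refine ⟨y + Finsupp.single (n : ℤ) r, ?_⟩
    rw [map_add, hy, bd0_single]
    abel
  | pred n ih =>
    obtain ⟨y, hy⟩ := ih
    refine ⟨y - Finsupp.single (-(n : ℤ) - 1) r, ?_⟩
    rw [map_sub, hy, bd0_single, sub_add_cancel]
    abel

lemma range_all (x : ℤ →₀ ℤ) : ∃ y, bd0 y = x - Finsupp.single 0 (tot x) := by
  induction x using Finsupp.induction_linear with
  | zero => exact ⟨0, by simp⟩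
  | add x x' h h' =>
    obtain ⟨y, hy⟩ := h
    obtain ⟨y', hy'⟩ := h'
    refine ⟨y + y', ?_⟩
    rw [map_add, hy, hy', map_add, Finsupp.single_add]
    abel
  | single n r =>
    rw [tot_single]
    exact range_single r n

lemma bd0_injective (x : ℤ →₀ ℤ) (h : bd0 x = 0) : x = 0 := by
  have h1 : Finsupp.mapDomain (fun n : ℤ => n + 1) x = x := by
    rw [bd0_apply] at h
    exact sub_eq_zero.1 h
  have h2 : ∀ n : ℤ, x (n + 1) = x n := by
    intro n
    have h3 := Finsupp.mapDomain_apply (f := fun n : ℤ => n + 1) (add_left_injective 1) x n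
    rw [h1] at h3
    exact h3
  have h4 : ∀ n : ℤ, x n = x 0 := by
    intro n
    induction n using Int.induction_on with
    | zero => rfl
    | succ n ih => rw [h2, ih]
    | pred n ih =>
      rw [← ih]
      have := h2 (-(n : ℤ) - 1)
      rw [sub_add_cancel] at this
      exact this.symm
  have h5 : x 0 = 0 := by
    by_contra hne
    have h6 : (x.support : Set ℤ) = Set.univ := by
      ext n
      simp [h4 n, hne]
    have h7 : (Set.univ : Set ℤ).Finite := by
      rw [← h6]
      exact x.support.finite_toSet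
    exact Set.infinite_univ h7
  ext n
  rw [h4 n, h5]
  rfl

/-- the line -/
def line (π : G →* Multiplicative ℤ) : AcyclicGComplex G where
  E := LE
  act := lact π
  bd := lbd
  bd_smul := by
    intro i g x
    match i with
    | 0 =>
      change ℤ →₀ ℤ at x
      show bd0 (Finsupp.mapDomain (fun e : ℤ => (π g).toAdd + e) x) =
        Finsupp.mapDomain (fun e : ℤ => (π g).toAdd + e) (bd0 x)
      have h1 : Finsupp.mapDomain (fun e : ℤ => (π g).toAdd + e) (bd0 x) =
          Finsupp.mapDomain (fun e : ℤ => (π g).toAdd + e)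
            (Finsupp.mapDomain (fun n : ℤ => n + 1) x) -
          Finsupp.mapDomain (fun e : ℤ => (π g).toAdd + e) x :=
        map_sub (Finsupp.mapDomain.addMonoidHom (fun e : ℤ => (π g).toAdd + e)) _ _
      rw [h1, bd0_apply, ← Finsupp.mapDomain_comp, ← Finsupp.mapDomain_comp]
      congr 2
      funext n
      simp only [Function.comp_apply]
      ring
    | i + 1 =>
      have h0 : (lbd (i + 1) : (LE (i + 2) →₀ ℤ) →+ (LE (i + 1) →₀ ℤ)) = 0 := rfl
      rw [h0]
      simp
  len := 1
  isEmpty := by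
    intro i hi
    match i with
    | 0 => omega
    | 1 => omega
    | i + 2 => exact (inferInstance : IsEmpty Empty)
  nonempty := ⟨(0 : ℤ)⟩
  exact_zero := by
    intro x
    change ℤ →₀ ℤ at x
    show x.sum (fun _ r => r) = 0 ↔ ∃ y : ℤ →₀ ℤ, bd0 y = x
    rw [← tot_apply]
    constructor
    · intro h
      obtain ⟨y, hy⟩ := range_all x
      refine ⟨y, ?_⟩
      rw [hy, h, Finsupp.single_zero, sub_zero]
    · rintro ⟨y, rfl⟩
      exact tot_bd0 y
  exact_succ := by
    intro i x
    match i with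
    | 0 =>
      change ℤ →₀ ℤ at x
      show bd0 x = 0 ↔ ∃ y : Empty →₀ ℤ, (0 : (Empty →₀ ℤ) →+ (ℤ →₀ ℤ)) y = x
      constructor
      · intro h
        exact ⟨0, (bd0_injective x h).symm⟩
      · rintro ⟨y, rfl⟩
        simp
    | i + 1 =>
      change Empty →₀ ℤ at x
      constructor
      · intro _
        exact ⟨0, by
          show (0 : Empty →₀ ℤ) = x
          exact Subsingleton.elim _ _⟩
      · intro _
        rfl

/-- the number of orbits -/
def lc : ℕ → ℕ
  | 0 => 1
  | 1 => 1
  | _ + 2 => 0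

/-- the representatives -/
def lrep : ∀ i, Fin (lc i) → LE i
  | 0 => fun _ => (0 : ℤ)
  | 1 => fun _ => (0 : ℤ)
  | _ + 2 => fun a => Fin.elim0 a

lemma orb (π : G →* Multiplicative ℤ) (t : G) (ht : π t = Multiplicative.ofAdd 1) (e : ℤ) :
    ∃ g : G, (π g).toAdd + 0 = e := by
  refine ⟨t ^ e, ?_⟩
  rw [map_zpow, ht, ← ofAdd_zsmul, toAdd_ofAdd, add_zero, smul_eq_mul, mul_one]

lemma stab (π : G →* Multiplicative ℤ) (g : G) : (π g).toAdd + 0 = 0 ↔ g ∈ π.ker := by
  rw [add_zero, MonoidHom.mem_ker]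
  exact Iff.rfl

/-- **LIN** -/
theorem t_LIN : Pool.Agent.V5helper87.ZM.S_LIN := by
  intro G _ π t ht
  refine ⟨line π, lc, lrep, ?_, ?_⟩
  · intro i e
    match i with
    | 0 =>
      obtain ⟨g, hg⟩ := orb π t ht e
      exact ⟨(0 : Fin 1), ⟨g, hg⟩, fun b _ => Subsingleton.elim (α := Fin 1) _ _⟩
    | 1 =>
      obtain ⟨g, hg⟩ := orb π t ht e
      exact ⟨(0 : Fin 1), ⟨g, hg⟩, fun b _ => Subsingleton.elim (α := Fin 1) _ _⟩
    | i + 2 => exact Empty.elim e
  · intro i a
    match i with
    | 0 =>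
      ext g
      exact stab π g
    | 1 =>
      ext g
      exact stab π g
    | i + 2 => exact Fin.elim0 a

end

end Pool.Agent.V5helper37.ZM
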